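import Mathlib

set_option autoImplicit false

namespace Pool.Agent.H43.Sym4

/-- An anisotropic ternary cubic form over `ZMod 5`: the norm form of
`F_5[t]/(t^3+t+1)` in the basis `1, t, t^2`. -/
def nf (a b c : ZMod 5) : ZMod 5 :=
  a ^ 3 - b ^ 3 + c ^ 3 - 2 * a ^ 2 * c + a * b ^ 2 + a * c ^ 2 + 3 * a * b * c - b * c ^ 2

theorem nf_anis : ∀ a b c : ZMod 5, nf a b c = 0 → a = 0 ∧ b = 0 ∧ c = 0 := by
  decide

/-- The colouring of `F_5^4` with `5` colours. -/
def f (v : Fin 4 → ZMod 5) : ZMod 5 := v 3 + nf (v 0) (v 1) (v 2)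

theorem f_key (v d : Fin 4 → ZMod 5) (h03 : f v = f (fun i => v i + 3 * d i))
    (h12 : f (fun i => v i + 1 * d i) = f (fun i => v i + 2 * d i)) : ∀ i, d i = 0 := by
  have h6 : (6 : ZMod 5) = 1 := by decide
  have hN : nf (d 0) (d 1) (d 2) = 0 := by
    have : 6 * nf (d 0) (d 1) (d 2) = 0 := by
      unfold f nf at h03 h12
      unfold nf
      linear_combination (-1 : ZMod 5) * h03 + 3 * h12
    rwa [h6, one_mul] at this
  obtain ⟨h0, h1, h2⟩ := nf_anis _ _ _ hN
  have h3 : d 3 = 0 := by
    have : 3 * d 3 = 0 := by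
      unfold f at h03
      simp only [h0, h1, h2, mul_zero, add_zero] at h03
      linear_combination (-1 : ZMod 5) * h03
    have h2' : (2 : ZMod 5) * (3 * d 3) = 0 := by rw [this, mul_zero]
    have : (6 : ZMod 5) * d 3 = 0 := by linear_combination h2'
    rwa [h6, one_mul] at this
  intro i
  fin_cases i
  · exact h0
  · exact h1
  · exact h2
  · exact h3

/-- The vector of base `5` digits number `j` of an integer vector. -/
def dig (j : ℕ) (Q : Fin 4 → ℤ) : Fin 4 → ZMod 5 := fun i => ((Q i / 5 ^ j : ℤ) : ZMod 5)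

theorem digits_key (m : ℕ) (Q D : Fin 4 → ℤ)
    (h03 : ∀ j < m, f (dig j Q) = f (dig j (fun i => Q i + 3 * D i)))
    (h12 : ∀ j < m, f (dig j (fun i => Q i + 1 * D i)) = f (dig j (fun i => Q i + 2 * D i))) :
    ∀ i, (5 : ℤ) ^ m ∣ D i := by
  have main : ∀ j ≤ m, ∀ i, (5 : ℤ) ^ j ∣ D i := by
    intro j
    induction j with
    | zero => intro _ i; simp
    | succ j ih =>
      intro hj i
      have hdiv := ih (by omega)
      choose E hE using hdiv
      have h5 : (5 : ℤ) ^ j ≠ 0 := by positivity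
      have hd : ∀ t : ℤ, dig j (fun i => Q i + t * D i) =
          fun i => dig j Q i + (t : ZMod 5) * ((E i : ℤ) : ZMod 5) := by
        intro t
        funext i
        unfold dig
        have : Q i + t * D i = Q i + (5 : ℤ) ^ j * (t * E i) := by rw [hE i]; ring
        simp only [this, Int.add_mul_ediv_left _ _ h5]
        push_cast
        ring
      have a03 := h03 j (by omega)
      have a12 := h12 j (by omega)
      have e3 := hd 3
      have e1 := hd 1
      have e2 := hd 2
      push_cast at e3 e1 e2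
      rw [e3] at a03
      rw [e1, e2] at a12
      have hz := f_key (dig j Q) (fun i => ((E i : ℤ) : ZMod 5)) a03 a12 i
      have : (5 : ℤ) ∣ E i := by
        have := (ZMod.intCast_zmod_eq_zero_iff_dvd (E i) 5).1 hz
        simpa using this
      obtain ⟨e, he⟩ := this
      rw [hE i, he]
      exact ⟨e, by ring⟩
  exact main m le_rfl

/-- Localisation: if the outer pair lies in one quarter of the residues modulo `A` and so does the
inner pair, then the four residues form an arithmetic progression of integers. -/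
theorem loc (A x d : ℤ) (hA : 0 < A)
    (h03 : 4 * (x % A) / A = 4 * ((x + 3 * d) % A) / A)
    (h12 : 4 * ((x + d) % A) / A = 4 * ((x + 2 * d) % A) / A) :
    ∃ δ D : ℤ, |δ| < A ∧ d = δ + A * D ∧ (x + d) / A = x / A + D ∧
      (x + 2 * d) / A = x / A + 2 * D ∧ (x + 3 * d) / A = x / A + 3 * D := by
  set r0 := x % A with hr0
  set r1 := (x + d) % A with hr1
  set r2 := (x + 2 * d) % A with hr2
  set r3 := (x + 3 * d) % A with hr3
  set q0 := x / A with hq0
  set q1 := (x + d) / A with hq1
  set q2 := (x + 2 * d) / A with hq2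
  set q3 := (x + 3 * d) / A with hq3
  have e0 : A * q0 + r0 = x := Int.mul_ediv_add_emod x A
  have e1 : A * q1 + r1 = x + d := Int.mul_ediv_add_emod _ A
  have e2 : A * q2 + r2 = x + 2 * d := Int.mul_ediv_add_emod _ A
  have e3 : A * q3 + r3 = x + 3 * d := Int.mul_ediv_add_emod _ A
  have b0 := Int.emod_nonneg x (ne_of_gt hA)
  have b1 := Int.emod_nonneg (x + d) (ne_of_gt hA)
  have b2 := Int.emod_nonneg (x + 2 * d) (ne_of_gt hA)
  have b3 := Int.emod_nonneg (x + 3 * d) (ne_of_gt hA)
  have c0 := Int.emod_lt_of_pos x hA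
  have c1 := Int.emod_lt_of_pos (x + d) hA
  have c2 := Int.emod_lt_of_pos (x + 2 * d) hA
  have c3 := Int.emod_lt_of_pos (x + 3 * d) hA
  rw [← hr0] at b0 c0
  rw [← hr1] at b1 c1
  rw [← hr2] at b2 c2
  rw [← hr3] at b3 c3
  -- the two pairs are close
  have close : ∀ a b : ℤ, 4 * a / A = 4 * b / A → |4 * a - 4 * b| < A := by
    intro a b h
    have ha := Int.mul_ediv_add_emod (4 * a) A
    have hb := Int.mul_ediv_add_emod (4 * b) A
    have ha1 := Int.emod_nonneg (4 * a) (ne_of_gt hA)
    have ha2 := Int.emod_lt_of_pos (4 * a) hA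
    have hb1 := Int.emod_nonneg (4 * b) (ne_of_gt hA)
    have hb2 := Int.emod_lt_of_pos (4 * b) hA
    rw [h] at ha
    rw [abs_lt]
    constructor <;> linarith
  have k03 := abs_lt.1 (close _ _ h03)
  have k12 := abs_lt.1 (close _ _ h12)
  have small : ∀ z w : ℤ, z = A * w → |z| < A → w = 0 := by
    intro z w hz hlt
    by_contra hw
    have : 1 ≤ |w| := Int.one_le_abs hw
    have : A ≤ |z| := by
      rw [hz, abs_mul, abs_of_pos hA]
      nlinarith
    linarith
  -- outer difference is three times the inner difference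
  have w1 : 3 * (q2 - q1) - (q3 - q0) = 0 := by
    apply small (-(3 * (r2 - r1) - (r3 - r0)))
    · linear_combination -(3 * (e2 - e1) - (e3 - e0))
    · rw [abs_neg, abs_lt]
      constructor <;> linarith [k03.1, k03.2, k12.1, k12.2]
  have w1' : 3 * (r2 - r1) = r3 - r0 := by
    linear_combination 3 * (e2 - e1) - (e3 - e0) - A * w1
  -- the residues are in progression
  have w2 : q1 - q0 - (q2 - q1) = 0 := by
    apply small (-(r1 - r0 - (r2 - r1)))
    · linear_combination -((e1 - e0) - (e2 - e1))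
    · rw [abs_neg, abs_lt]
      constructor <;> nlinarith [k03.1, k03.2, k12.1, k12.2]
  refine ⟨r1 - r0, q1 - q0, ?_, ?_, ?_, ?_, ?_⟩
  · rw [abs_lt]; constructor <;> linarith
  · linear_combination e0 - e1
  · ring
  · linear_combination -w2
  · linear_combination -3 * w2 - w1
end Pool.Agent.H43.Sym4
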